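import Pool.Agent.Helper94.PQ.Stmts

/-!
# MP_c63a07_nt, module VRES: the local models of `L ≤ L'`
-/

set_option autoImplicit false

open NumberField
open scoped Classical

namespace PQ

open BKA Pool.Agent.Helper13.Swan

namespace VR

theorem numField {F : Type} [Field F] [NumberField F]
    (L : IntermediateField F (AlgebraicClosure F)) (hL : FiniteDimensional F L) :
    NumberField L :=
  NumberField.of_module_finite F L

/-- the hypothesis on a valuation centred at `P` -/
def Cen {L : Type} [Field L] [NumberField L] (P : IsDedekindDomain.HeightOneSpectrum (𝓞 L))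
    (w : Valuation L (WithZero (Multiplicative ℤ))) : Prop :=
  ∀ x : 𝓞 L, w (x : L) ≤ 1 ∧ (w (x : L) < 1 ↔ x ∈ P.asIdeal)

section

variable {L : Type} [Field L] [NumberField L] (P : IsDedekindDomain.HeightOneSpectrum (𝓞 L))

theorem Cen.one_int {w : Valuation L (WithZero (Multiplicative ℤ))} (hw : Cen P w) (x : 𝓞 L)
    (hx : x ∉ P.asIdeal) : w (x : L) = 1 := by
  obtain ⟨h1, h2⟩ := hw x
  refine le_antisymm h1 ?_
  by_contra h3
  exact hx (h2.1 (not_le.1 h3))

theorem Cen.one {w : Valuation L (WithZero (Multiplicative ℤ))} (hw : Cen P w) (x : L)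
    (hx : P.valuation L x = 1) : w x = 1 := by
  obtain ⟨n, d, h⟩ := P.exists_primeCompl_mul_eq_of_integer x (le_of_eq hx)
  have hd : (d : 𝓞 L) ∉ P.asIdeal := d.2
  have hd1 : P.valuation L (algebraMap (𝓞 L) L d) = 1 := by
    rw [P.valuation_eq_one_iff_notMem]
    exact hd
  have hn : n ∉ P.asIdeal := by
    rw [← P.valuation_eq_one_iff_notMem (K := L), ← h, map_mul, hx, hd1, mul_one]
  have hn2 : w (algebraMap (𝓞 L) L n) = 1 := hw.one_int P n hn
  have hd2 : w (algebraMap (𝓞 L) L d) = 1 := hw.one_int P d hd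
  rw [← h, map_mul, hd2, mul_one] at hn2
  exact hn2

theorem Cen.pow (ϖ : L) (hϖ : P.valuation L ϖ = ex 1) (x : L) (hx : x ≠ 0) :
    ∃ n : ℤ, ∀ w : Valuation L (WithZero (Multiplicative ℤ)), Cen P w → w x = w ϖ ^ n := by
  have hx0 : P.valuation L x ≠ 0 := (Valuation.ne_zero_iff _).2 hx
  obtain ⟨n, hn⟩ := exists_ex hx0
  have hϖ0 : ϖ ≠ 0 := by
    intro h
    rw [h, map_zero] at hϖ
    exact ex_ne_zero 1 hϖ.symm
  have hex : ∀ n : ℤ, ex 1 ^ n = ex n := by
    intro n
    unfold ex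
    rw [← WithZero.exp_zsmul]
    congr 1
    simp
  refine ⟨n, fun w hw => ?_⟩
  have h1 : P.valuation L (x / ϖ ^ n) = 1 := by
    rw [map_div₀, map_zpow₀, hϖ, hn, hex, div_self (ex_ne_zero n)]
  have h2 := hw.one P _ h1
  rw [map_div₀, map_zpow₀] at h2
  have h3 : w ϖ ^ n ≠ 0 := zpow_ne_zero _ ((Valuation.ne_zero_iff _).2 hϖ0)
  rw [div_eq_iff h3, one_mul] at h2
  exact h2

end

theorem ex_zpow (k n : ℤ) : ex k ^ n = ex (n * k) := by
  unfold ex
  rw [← WithZero.exp_zsmul]
  congr 1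
  simp

end VR

theorem vres : ST_VRES := by
  intro F _ _ v 𝔓 hP L L' h hL' M M'
  have hLfin : FiniteDimensional F L :=
    FiniteDimensional.of_injective (IntermediateField.inclusion h).toLinearMap
      (IntermediateField.inclusion h).injective
  have hNL : NumberField L := VR.numField L hLfin
  have hprime : (under L 𝔓).IsPrime := by
    have := hP.1
    exact Ideal.comap_isPrime _ _
  -- a nonzero element
  have hne : under L 𝔓 ≠ ⊥ := by
    intro hbot
    obtain ⟨a, b, hb, hab⟩ := IsFractionRing.div_surjective (A := 𝓞 L) M.π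
    have hπ : M.w M.π < 1 := by
      rw [M.base.unif, ← ex_zero, ex_lt_ex]
      norm_num
    have hπ0 : M.π ≠ 0 := by
      intro h0
      have h1 := M.base.unif
      rw [h0, map_zero] at h1
      exact ex_ne_zero 1 h1.symm
    have hb0 : (algebraMap (𝓞 L) L b) ≠ 0 := by
      intro h0
      rw [h0, div_zero] at hab
      exact hπ0 hab.symm
    have ha0 : a ≠ 0 := by
      intro h0
      rw [h0, map_zero, zero_div] at hab
      exact hπ0 hab.symm
    have hwb : M.w (algebraMap (𝓞 L) L b) ≤ 1 := (M.int b).1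
    have hab2 : algebraMap (𝓞 L) L a = M.π * algebraMap (𝓞 L) L b := by
      rw [← hab, div_mul_cancel₀ _ hb0]
    have hwa : M.w (algebraMap (𝓞 L) L a) < 1 := by
      rw [hab2, map_mul]
      exact lt_of_le_of_lt (mul_le_of_le_one_right' hwb) hπ
    have ha1 : a ∈ under L 𝔓 := (M.int a).2.1 hwa
    rw [hbot] at ha1
    exact ha0 ha1
  let P : IsDedekindDomain.HeightOneSpectrum (𝓞 L) := ⟨under L 𝔓, hprime, hne⟩
  let w2 : Valuation L (WithZero (Multiplicative ℤ)) :=
    M'.w.comap (IntermediateField.inclusion h).toRingHom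
  have hc1 : VR.Cen P M.w := M.int
  have hc2 : VR.Cen P w2 := by
    intro x
    have hi : IsIntegral ℤ (IntermediateField.inclusion h (x : L)) :=
      x.isIntegral_coe.map ((IntermediateField.inclusion h).toRingHom.toIntAlgHom)
    let x' : 𝓞 L' := ⟨IntermediateField.inclusion h (x : L), hi⟩
    have hx' : inc L' x' = inc L x := rfl
    have hmem : x' ∈ under L' 𝔓 ↔ x ∈ under L 𝔓 := by
      unfold under
      rw [Ideal.mem_comap, Ideal.mem_comap, hx']
    have h1 := M'.int x'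
    rw [hmem] at h1
    exact h1
  obtain ⟨ϖ, hϖ⟩ := P.intValuation_exists_uniformizer
  have hϖ1 : P.valuation L (algebraMap (𝓞 L) L ϖ) = ex 1 := by
    rw [P.valuation_of_algebraMap, hϖ]
    rfl
  have hϖP : ϖ ∈ P.asIdeal := by
    rw [← P.intValuation_lt_one_iff_mem, hϖ, ← WithZero.exp_zero, WithZero.exp_lt_exp]
    norm_num
  have hϖ0 : (algebraMap (𝓞 L) L ϖ) ≠ 0 := by
    intro h0
    rw [h0, map_zero] at hϖ1
    exact ex_ne_zero 1 hϖ1.symm
  have hϖw : M.w (algebraMap (𝓞 L) L ϖ) < 1 := (hc1 ϖ).2.2 hϖP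
  have hϖw2 : w2 (algebraMap (𝓞 L) L ϖ) < 1 := (hc2 ϖ).2.2 hϖP
  obtain ⟨k, hk⟩ := exists_ex ((Valuation.ne_zero_iff M.w).2 hϖ0)
  obtain ⟨f, hf⟩ := exists_ex ((Valuation.ne_zero_iff w2).2 hϖ0)
  have hk0 : 0 < k := by
    rw [hk, ← ex_zero, ex_lt_ex] at hϖw
    exact hϖw
  have hf0 : 0 < f := by
    rw [hf, ← ex_zero, ex_lt_ex] at hϖw2
    exact hϖw2
  have hk1 : k = 1 := by
    have hπ0 : M.π ≠ 0 := by
      intro h0
      have h1 := M.base.unif
      rw [h0, map_zero] at h1
      exact ex_ne_zero 1 h1.symm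
    obtain ⟨n, hn⟩ := VR.Cen.pow P _ hϖ1 M.π hπ0
    have h1 := hn M.w hc1
    rw [M.base.unif, hk, VR.ex_zpow, ex_inj] at h1
    have h2 : k ∣ 1 := ⟨n, by rw [h1, mul_comm]⟩
    exact le_antisymm (Int.le_of_dvd one_pos h2) hk0
  have hff : ((f.toNat : ℕ) : ℤ) = f := Int.toNat_of_nonneg hf0.le
  have hmain : ∀ x : L, M'.w (IntermediateField.inclusion h x) = M.w x ^ f.toNat := by
    intro x
    by_cases hx : x = 0
    · rw [hx, map_zero, map_zero, map_zero, zero_pow]
      omega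
    · obtain ⟨n, hn⟩ := VR.Cen.pow P _ hϖ1 x hx
      have h1 := hn M.w hc1
      have h2 : M'.w (IntermediateField.inclusion h x) = w2 (algebraMap (𝓞 L) L ϖ) ^ n :=
        hn w2 hc2
      rw [h1, h2, hk, hf, hk1, VR.ex_zpow, VR.ex_zpow, ex_pow, hff]
      congr 1
      ring
  refine ⟨f.toNat, by omega, hmain, ?_⟩
  obtain ⟨x, hx⟩ := v.valuation_exists_uniformizer F
  have h1 := M.val x
  have h2 := M'.val x
  have h3 := hmain (algebraMap F L x)
  have h4 : IntermediateField.inclusion h (algebraMap F L x) = algebraMap F L' x :=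
    (IntermediateField.inclusion h).commutes x
  have hx' : v.valuation F x = ex 1 := hx
  rw [h4, h2, h1, hx', ex_pow, ex_pow, ex_pow, ex_inj] at h3
  have h5 : ((Nat.card (Inr L' 𝔓) : ℕ) : ℤ) = ((f.toNat * Nat.card (Inr L 𝔓) : ℕ) : ℤ) := by
    push_cast
    linarith
  exact_mod_cast h5

end PQ
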